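import Pool.Agent.Y780.HX.ZI1

/-! Project HX (helper228), job ZI: the recurrence for the sums over the closed cells. -/

set_option autoImplicit false

namespace Pool.Agent.Y780.HX

open Pool.Agent.Y228.HX


theorem Ann_zero : Ann fun _ => 0 := by
  refine ⟨0, fun _ => 1, fun T0 _ => by simp, fun m => by simp⟩

theorem Ann_list (hA : S_ANN) {X : Type} (S : List X) (f : X → ℕ → PowerSeries ℂ) (h : ∀ s ∈ S, Ann (f s)) :
    Ann fun m => (S.map fun s => f s m).sum := by
  induction S with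
  | nil => simpa using Ann_zero
  | cons a S ih =>
    simp only [List.map_cons, List.sum_cons]
    exact hA.1 _ _ (h a (by simp)) (ih fun s hs => h s (List.mem_cons_of_mem _ hs))

theorem tsum_list {X Y : Type} (S : List X) (f : X → Y → ℂ) (h : ∀ s ∈ S, Summable (f s)) :
    (Summable fun y => (S.map fun s => f s y).sum) ∧
    (S.map fun s => ∑' y, f s y).sum = ∑' y, (S.map fun s => f s y).sum := by
  induction S with
  | nil =>
    simp
  | cons a S ih =>
    obtain ⟨i1, i2⟩ := ih fun s hs => h s (List.mem_cons_of_mem _ hs)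
    have ha := h a (by simp)
    simp only [List.map_cons, List.sum_cons]
    exact ⟨ha.add i1, by rw [i2, ha.tsum_add i1]⟩

theorem indi_of {P : Prop} (h : P) : indi P = 1 := by
  unfold indi
  rw [if_pos h]

theorem indi_not {P : Prop} (h : ¬ P) : indi P = 0 := by
  unfold indi
  rw [if_neg h]

theorem t_ZI : S_ANN → S_SUB → S_SEL → S_CONE → S_ZI := by
  intro hA hSub hSel hC r N q hq v h I zw za hzw hza hI hnI
  obtain ⟨p0, s0, hs0⟩ := hSub (WW N) (I.toList.map fun j => yF v h j - aF N)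
  set L : List (WW N →ₗ[ℚ] ℚ) := (List.finRange N).map wF ++ ([aF N, mF N] ++
    ((Finset.univ \ I).toList.map fun j => yF v h j - aF N)) with hL
  let ξ0 : WW N := (zw, za, 1)
  have hy0 : ∀ j, (yF v h j - aF N) ξ0 = ∑ i, zw i * (v j i : ℚ) + (h j : ℚ) - za := by
    intro j
    rw [LinearMap.sub_apply, yF_apply, aF_apply, one_mul]
  have hξ0 : s0.pr ξ0 = ξ0 := by
    rw [hs0]
    intro l hl
    rw [List.mem_map] at hl
    obtain ⟨j, hj, rfl⟩ := hl
    rw [hy0, hI j (Finset.mem_toList.1 hj), sub_self]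
  have hmemL : ∀ Q : (WW N →ₗ[ℚ] ℚ) → Prop, (∀ l ∈ L, Q l) ↔
      (∀ i, Q (wF i)) ∧ Q (aF N) ∧ Q (mF N) ∧ ∀ j, j ∉ I → Q (yF v h j - aF N) := by
    intro Q
    rw [hL]
    constructor
    · intro hQ
      refine ⟨fun i => hQ _ ?_, hQ _ ?_, hQ _ ?_, fun j hj => hQ _ ?_⟩
      · simp
      · simp
      · simp
      · rw [List.mem_append, List.mem_append]
        exact Or.inr (Or.inr (List.mem_map.2 ⟨j, by simp [hj], rfl⟩))
    · rintro ⟨h1, h2, h3, h4⟩ l hl
      rw [List.mem_append, List.mem_append, List.mem_map, List.mem_map] at hl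
      rcases hl with ⟨i, _, rfl⟩ | hl | ⟨j, hj, rfl⟩
      · exact h1 i
      · simp only [List.mem_cons, List.not_mem_nil, or_false] at hl
        rcases hl with rfl | rfl
        · exact h2
        · exact h3
      · refine h4 j ?_
        simpa using hj
  have hL0 : ∀ l ∈ L, l ξ0 ≠ 0 := by
    rw [hmemL]
    refine ⟨fun i => (hzw i).ne, hza.ne', one_ne_zero, fun j hj => ?_⟩
    rw [hy0]
    exact (sub_pos.2 (hnI j hj)).ne'
  obtain ⟨S, ξ, hξ, hLξ, hS, hind⟩ := hSel (WW N) p0 s0 L ξ0 hξ0 hL0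
  have hLξ' := (hmemL _).1 hLξ
  have hmξ : 0 < ξ.2.2 := hLξ'.2.2.1.1 one_pos
  have hcone : ∀ s' ∈ S, (∀ x, PP s' ξ x → ∀ i, 0 ≤ x.1 i) ∧ Ann (Zs q (PP s' ξ)) := by
    intro s' hs'
    obtain ⟨k1, k2, k3⟩ := hS s' hs'
    obtain ⟨l1, l2, l3, l4⟩ := (hmemL _).1 k3
    exact cone_ann hC s' ξ q hq (fun i k => l1 k i) l2 l3 (by rw [k1, hξ]) hmξ
  have hAnn := Ann_list hA S (fun s' => Zs q (PP s' ξ)) fun s' hs' => (hcone s' hs').2
  convert hAnn using 1
  funext m
  ext t
  have hcoeff : (PowerSeries.coeff t) (S.map fun s' => Zs q (PP s' ξ) m).sum =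
      (S.map fun s' => ∑' x : AA N, tm q (PP s' ξ) m t x).sum := by
    rw [map_list_sum, List.map_map]
    congr 1
    refine List.map_congr_left fun s' _ => ?_
    simp [Function.comp, Zs, PowerSeries.coeff_mk]
  rw [hcoeff, (tsum_list S (fun s' => tm q (PP s' ξ) m t) fun s' hs' =>
    summC q hq _ (hcone s' hs').1 m t).2]
  unfold ZI
  rw [PowerSeries.coeff_mk]
  have hterm : ∀ x : AA N, (S.map fun s' => tm (K := ℂ) q (PP s' ξ) m t x).sum =
      tm q (fun x => s0.pr (io N x) = io N x ∧ ∀ l ∈ L, 0 ≤ l (io N x) ∧ (l ξ0 < 0 → 0 < l (io N x))) m t x := by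
    intro x
    by_cases hx : mmA N x = m ∧ alA N x = t
    · by_cases hp : s0.pr (io N x) = io N x
      · have h1 : ∀ s' ∈ S, tm (K := ℂ) q (PP s' ξ) m t x =
            (q : ℂ)⁻¹ ^ (wtA N x).toNat * ((indi (s'.In ξ (io N x)) : ℤ) : ℂ) := by
          intro s' hs'
          have h2 := (hS s' hs').1 (io N x)
          unfold tm PP
          rw [h2]
          by_cases hin : s'.In ξ (io N x)
          · rw [if_pos ⟨⟨hp, hin⟩, hx⟩, indi_of hin, Int.cast_one, mul_one]
          · rw [if_neg fun h' => hin h'.1.2, indi_not hin, Int.cast_zero, mul_zero]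
        rw [List.map_congr_left h1, List.sum_map_mul_left]
        have h3 := hind (io N x) hp
        have h4 : (S.map fun s' => ((indi (s'.In ξ (io N x)) : ℤ) : ℂ)).sum =
            (((S.map fun s' => indi (s'.In ξ (io N x))).sum : ℤ) : ℂ) := by
          rw [Int.cast_list_sum, List.map_map]
          rfl
        rw [h4, ← h3]
        unfold tm
        by_cases hl : ∀ l ∈ L, 0 ≤ l (io N x) ∧ (l ξ0 < 0 → 0 < l (io N x))
        · rw [if_pos ⟨⟨hp, hl⟩, hx⟩, indi_of hl, Int.cast_one, mul_one]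
        · rw [if_neg fun h' => hl h'.1.2, indi_not hl, Int.cast_zero, mul_zero]
      · have h1 : ∀ s' ∈ S, tm (K := ℂ) q (PP s' ξ) m t x = 0 := by
          intro s' hs'
          have h2 := (hS s' hs').1 (io N x)
          unfold tm PP
          rw [h2, if_neg fun h' => hp h'.1.1]
        rw [List.map_congr_left h1]
        unfold tm
        rw [if_neg fun h' => hp h'.1.1]
        simp
    · have h1 : ∀ s' ∈ S, tm (K := ℂ) q (PP s' ξ) m t x = 0 := by
        intro s' hs'
        unfold tm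
        rw [if_neg fun h' => hx h'.2]
      rw [List.map_congr_left h1]
      unfold tm
      rw [if_neg fun h' => hx h'.2]
      simp
  rw [tsum_congr hterm]
  have hP : ∀ x : AA N, (s0.pr (io N x) = io N x ∧ ∀ l ∈ L, 0 ≤ l (io N x) ∧ (l ξ0 < 0 → 0 < l (io N x))) ↔
      (∀ i, 0 < x.1 i) ∧ 0 ≤ x.2.1 ∧ 0 ≤ x.2.2 ∧ (∀ j ∈ I, ∑ i, x.1 i * (v j i : ℤ) + x.2.2 * (h j : ℤ) = x.2.1) ∧
        ∀ j, j ∉ I → x.2.1 ≤ ∑ i, x.1 i * (v j i : ℤ) + x.2.2 * (h j : ℤ) := by
    intro x
    have hyc : ∀ j, (yF v h j - aF N) (io N x) =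
        ((∑ i, x.1 i * (v j i : ℤ) + x.2.2 * (h j : ℤ) - x.2.1 : ℤ) : ℚ) := by
      intro j
      rw [LinearMap.sub_apply, yF_apply, aF_apply]
      push_cast
      rfl
    have hE : s0.pr (io N x) = io N x ↔ ∀ j ∈ I, ∑ i, x.1 i * (v j i : ℤ) + x.2.2 * (h j : ℤ) = x.2.1 := by
      rw [hs0]
      constructor
      · intro h1 j hj
        have h2 := h1 _ (List.mem_map.2 ⟨j, Finset.mem_toList.2 hj, rfl⟩)
        rw [hyc] at h2
        have h3 : ∑ i, x.1 i * (v j i : ℤ) + x.2.2 * (h j : ℤ) - x.2.1 = 0 := by exact_mod_cast h2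
        linarith
      · intro h1 l hl
        rw [List.mem_map] at hl
        obtain ⟨j, hj, rfl⟩ := hl
        rw [hyc, h1 j (Finset.mem_toList.1 hj), sub_self, Int.cast_zero]
    rw [hE, hmemL]
    have w1 : ∀ i : Fin N, (0 ≤ wF i (io N x) ∧ (wF i ξ0 < 0 → 0 < wF i (io N x))) ↔ 0 < x.1 i := by
      intro i
      rw [wF_apply, io_fst]
      constructor
      · rintro ⟨_, h2⟩
        exact_mod_cast h2 (hzw i)
      · intro h2
        have h3 : (0 : ℚ) < (x.1 i : ℚ) := by exact_mod_cast h2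
        exact ⟨h3.le, fun _ => h3⟩
    have w2 : (0 ≤ aF N (io N x) ∧ (aF N ξ0 < 0 → 0 < aF N (io N x))) ↔ 0 ≤ x.2.1 := by
      rw [aF_apply, io_snd]
      constructor
      · rintro ⟨h1, _⟩
        exact_mod_cast h1
      · intro h1
        refine ⟨by exact_mod_cast h1, fun h2 => absurd h2 (not_lt.2 hza.le)⟩
    have w3 : (0 ≤ mF N (io N x) ∧ (mF N ξ0 < 0 → 0 < mF N (io N x))) ↔ 0 ≤ x.2.2 := by
      rw [mF_apply, io_thd]
      constructor
      · rintro ⟨h1, _⟩
        exact_mod_cast h1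
      · intro h1
        refine ⟨by exact_mod_cast h1, fun h2 => absurd h2 (not_lt.2 zero_le_one)⟩
    have w4 : (∀ j, j ∉ I → (0 ≤ (yF v h j - aF N) (io N x) ∧
        ((yF v h j - aF N) ξ0 < 0 → 0 < (yF v h j - aF N) (io N x)))) ↔
        ∀ j, j ∉ I → x.2.1 ≤ ∑ i, x.1 i * (v j i : ℤ) + x.2.2 * (h j : ℤ) := by
      refine forall_congr' fun j => forall_congr' fun hj => ?_
      rw [hyc, hy0]
      constructor
      · rintro ⟨h1, _⟩
        have h3 : 0 ≤ ∑ i, x.1 i * (v j i : ℤ) + x.2.2 * (h j : ℤ) - x.2.1 := by exact_mod_cast h1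
        linarith
      · intro h1
        have h3 : 0 ≤ ∑ i, x.1 i * (v j i : ℤ) + x.2.2 * (h j : ℤ) - x.2.1 := by linarith
        refine ⟨by exact_mod_cast h3, fun h2 => absurd h2 (not_lt.2 (sub_nonneg.2 (hnI j hj).le))⟩
    rw [forall_congr' w1, w2, w3, w4]
    constructor
    · rintro ⟨a, b, c, d, e⟩
      exact ⟨b, c, d, a, e⟩
    · rintro ⟨b, c, d, a, e⟩
      exact ⟨a, b, c, d, e⟩
  rw [← (kk_inj m t).tsum_eq (f := tm (K := ℂ) q _ m t)]
  · refine tsum_congr fun x => ?_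
    unfold tm
    have e1 : mmA N (kk m t x) = m := rfl
    have e2 : alA N (kk m t x) = t := rfl
    have hcast : ∀ j, ∑ i, (kk m t x).1 i * (v j i : ℤ) + (kk m t x).2.2 * (h j : ℤ) =
        ((∑ i, x i * v j i + m * h j : ℕ) : ℤ) := by
      intro j
      push_cast
      rfl
    have hiff : ((∀ i, 0 < x i) ∧ (∀ j, t ≤ ∑ i, x i * v j i + m * h j) ∧
        ∀ j ∈ I, ∑ i, x i * v j i + m * h j = t) ↔
        ((s0.pr (io N (kk m t x)) = io N (kk m t x) ∧ ∀ l ∈ L, 0 ≤ l (io N (kk m t x)) ∧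
          (l ξ0 < 0 → 0 < l (io N (kk m t x)))) ∧ mmA N (kk m t x) = m ∧ alA N (kk m t x) = t) := by
      rw [hP]
      constructor
      · rintro ⟨h1, h2, h3⟩
        refine ⟨⟨fun i => ?_, ?_, ?_, fun j hj => ?_, fun j hj => ?_⟩, e1, e2⟩
        · exact Int.natCast_pos.2 (h1 i)
        · exact Int.natCast_nonneg t
        · exact Int.natCast_nonneg m
        · rw [hcast, h3 j hj]
          rfl
        · rw [hcast]
          exact Int.ofNat_le.2 (h2 j)
      · rintro ⟨⟨h1, _, _, h3, h4⟩, _, _⟩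
        have h5 : ∀ j ∈ I, ∑ i, x i * v j i + m * h j = t := by
          intro j hj
          have := h3 j hj
          rw [hcast] at this
          exact Int.ofNat_inj.1 this
        refine ⟨fun i => ?_, fun j => ?_, h5⟩
        · exact Int.natCast_pos.1 (h1 i)
        · by_cases hj : j ∈ I
          · exact (h5 j hj).ge
          · have := h4 j hj
            rw [hcast] at this
            exact Int.ofNat_le.1 this
    by_cases hh : (∀ i, 0 < x i) ∧ (∀ j, t ≤ ∑ i, x i * v j i + m * h j) ∧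
        ∀ j ∈ I, ∑ i, x i * v j i + m * h j = t
    · rw [if_pos hh, if_pos (hiff.1 hh), wt_kk]
    · rw [if_neg hh, if_neg fun h' => hh (hiff.2 h')]
  · intro x hx
    rw [Function.mem_support] at hx
    have h1 : (s0.pr (io N x) = io N x ∧ ∀ l ∈ L, 0 ≤ l (io N x) ∧ (l ξ0 < 0 → 0 < l (io N x))) ∧
        mmA N x = m ∧ alA N x = t := by
      by_contra h'
      apply hx
      unfold tm
      rw [if_neg h']
    have h2 := (hP x).1 h1.1
    exact mem_kk (fun i => (h2.1 i).le) h1.2.1 h1.2.2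

end Pool.Agent.Y780.HX
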