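import Pool.Agent.Y228.HX.Stm

/-! Project HX (helper228), job ZI: the recurrence for the sums over the closed cells. -/

set_option autoImplicit false

namespace Pool.Agent.Y780.HX

open Pool.Agent.Y228.HX

section spaces

variable {N : ℕ}

/-- the rational points `(w, a, m)` -/
abbrev WW (N : ℕ) := (Fin N → ℚ) × ℚ × ℚ

/-- the integral points `(w, a, m)` -/
abbrev AA (N : ℕ) := (Fin N → ℤ) × ℤ × ℤ

/-- the inclusion -/
def io (N : ℕ) : AA N →+ WW N :=
  AddMonoidHom.mk' (fun x => (fun i => (x.1 i : ℚ), (x.2.1 : ℚ), (x.2.2 : ℚ))) (by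
    intro x y
    ext <;> simp)

@[simp] theorem io_fst (x : AA N) (i : Fin N) : (io N x).1 i = (x.1 i : ℚ) := rfl
@[simp] theorem io_snd (x : AA N) : (io N x).2.1 = (x.2.1 : ℚ) := rfl
@[simp] theorem io_thd (x : AA N) : (io N x).2.2 = (x.2.2 : ℚ) := rfl

/-- coordinates -/
def wF (i : Fin N) : WW N →ₗ[ℚ] ℚ := LinearMap.proj i ∘ₗ LinearMap.fst ℚ _ _
def aF (N : ℕ) : WW N →ₗ[ℚ] ℚ := LinearMap.fst ℚ _ _ ∘ₗ LinearMap.snd ℚ _ _
def mF (N : ℕ) : WW N →ₗ[ℚ] ℚ := LinearMap.snd ℚ _ _ ∘ₗ LinearMap.snd ℚ _ _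

@[simp] theorem wF_apply (i : Fin N) (x : WW N) : wF i x = x.1 i := rfl
@[simp] theorem aF_apply (x : WW N) : aF N x = x.2.1 := rfl
@[simp] theorem mF_apply (x : WW N) : mF N x = x.2.2 := rfl

/-- the functional of the exponent `v j` -/
def yF {r : ℕ} (v : Fin r → Fin N → ℕ) (h : Fin r → ℕ) (j : Fin r) : WW N →ₗ[ℚ] ℚ :=
  ∑ i, (v j i : ℚ) • wF i + (h j : ℚ) • mF N

theorem yF_apply {r : ℕ} (v : Fin r → Fin N → ℕ) (h : Fin r → ℕ) (j : Fin r) (x : WW N) :
    yF v h j x = ∑ i, x.1 i * (v j i : ℚ) + x.2.2 * (h j : ℚ) := by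
  unfold yF
  rw [LinearMap.add_apply, LinearMap.sum_apply]
  simp only [LinearMap.smul_apply, wF_apply, mF_apply, smul_eq_mul]
  congr 1
  · exact Finset.sum_congr rfl fun i _ => mul_comm _ _
  · exact mul_comm _ _

/-- the total weight -/
def wtF (N : ℕ) : WW N →ₗ[ℚ] ℚ := ∑ i, wF i

/-- the integral versions -/
def wtA (N : ℕ) : AA N →+ ℤ :=
  AddMonoidHom.mk' (fun x => ∑ i, x.1 i) (by
    intro x y
    simp [Finset.sum_add_distrib])
def alA (N : ℕ) : AA N →+ ℤ := AddMonoidHom.mk' (fun x => x.2.1) (by intro x y; rfl)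
def mmA (N : ℕ) : AA N →+ ℤ := AddMonoidHom.mk' (fun x => x.2.2) (by intro x y; rfl)

theorem wtA_apply (x : AA N) : wtA N x = ∑ i, x.1 i := rfl
theorem alA_apply (x : AA N) : alA N x = x.2.1 := rfl
theorem mmA_apply (x : AA N) : mmA N x = x.2.2 := rfl

theorem clear_one (z : ℚ) (c : ℕ) (h : z.den ∣ c) : ∃ k : ℤ, (k : ℚ) = c * z := by
  obtain ⟨d, hd⟩ := h
  refine ⟨z.num * d, ?_⟩
  have h1 : z * z.den = z.num := Rat.mul_den_eq_num z
  rw [hd]
  push_cast
  rw [← h1]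
  ring

theorem clear (g : WW N) : ∃ (c : ℕ) (γ : AA N), 0 < c ∧ io N γ = (c : ℚ) • g := by
  have hd : ∀ z : ℚ, 0 < z.den := fun z => z.den_pos
  set c : ℕ := (∏ i, (g.1 i).den) * (g.2.1.den * g.2.2.den) with hc
  have hc0 : 0 < c := by
    rw [hc]
    exact mul_pos (Finset.prod_pos fun i _ => hd _) (mul_pos (hd _) (hd _))
  have h1 : ∀ i, ∃ k : ℤ, (k : ℚ) = c * g.1 i := fun i =>
    clear_one _ _ ((Finset.dvd_prod_of_mem _ (Finset.mem_univ i)).trans (dvd_mul_right _ _))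
  choose k hk using h1
  obtain ⟨a, ha⟩ := clear_one g.2.1 c ((dvd_mul_right _ _).trans (dvd_mul_left _ _))
  obtain ⟨m, hm⟩ := clear_one g.2.2 c ((dvd_mul_left _ _).trans (dvd_mul_left _ _))
  refine ⟨c, (k, a, m), hc0, ?_⟩
  ext i
  · exact hk i
  · exact ha
  · exact hm

/-- the points with given `a`, `m` -/
def kk (m t : ℕ) (x : Fin N → ℕ) : AA N := (fun i => (x i : ℤ), (t : ℤ), (m : ℤ))

theorem kk_inj (m t : ℕ) : Function.Injective (kk (N := N) m t) := by
  intro x y h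
  funext i
  have := congrFun (congrArg Prod.fst h) i
  simpa [kk] using this

theorem mem_kk {m t : ℕ} {x : AA N} (h0 : ∀ i, 0 ≤ x.1 i) (hm : mmA N x = m) (ht : alA N x = t) :
    x ∈ Set.range (kk (N := N) m t) := by
  refine ⟨fun i => (x.1 i).toNat, ?_⟩
  rw [mmA_apply] at hm
  rw [alA_apply] at ht
  unfold kk
  ext i
  · exact Int.toNat_of_nonneg (h0 i)
  · exact ht.symm
  · exact hm.symm

theorem wt_kk (m t : ℕ) (x : Fin N → ℕ) : (wtA N (kk m t x)).toNat = ∑ i, x i := by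
  rw [wtA_apply]
  have : ∑ i, (kk m t x).1 i = ((∑ i, x i : ℕ) : ℤ) := by
    push_cast
    rfl
  rw [this, Int.toNat_natCast]

theorem summable_q (q : ℕ) (hq : 2 ≤ q) : Summable fun x : Fin N → ℕ => (q : ℝ)⁻¹ ^ (∑ i, x i) := by
  refine summable_of_sum_le (c := (2 : ℝ) ^ N) (fun u => by positivity) fun F => ?_
  obtain ⟨M, hM⟩ : ∃ M : ℕ, ∀ u ∈ F, ∀ i, u i < M := by
    refine ⟨(F.sup fun u => Finset.univ.sup u) + 1, fun u hu i => ?_⟩
    refine Nat.lt_succ_of_le ?_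
    exact (Finset.le_sup (f := u) (Finset.mem_univ i)).trans
      (Finset.le_sup (f := fun u : Fin N → ℕ => Finset.univ.sup u) hu)
  have hsub : F ⊆ Fintype.piFinset (fun _ : Fin N => Finset.range M) := by
    intro u hu
    rw [Fintype.mem_piFinset]
    exact fun i => Finset.mem_range.2 (hM u hu i)
  have hq1 : (q : ℝ)⁻¹ ≤ 1 / 2 := by
    rw [one_div]
    exact inv_anti₀ (by norm_num) (by exact_mod_cast hq)
  have h1 : ∀ u : Fin N → ℕ, (q : ℝ)⁻¹ ^ (∑ i, u i) ≤ ∏ i, ((1 : ℝ) / 2) ^ u i := by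
    intro u
    rw [Finset.prod_pow_eq_pow_sum]
    exact pow_le_pow_left₀ (by positivity) hq1 _
  refine (Finset.sum_le_sum fun u _ => h1 u).trans ?_
  refine (Finset.sum_le_sum_of_subset_of_nonneg hsub fun u _ _ => by positivity).trans ?_
  rw [← Finset.prod_univ_sum (fun _ : Fin N => Finset.range M) (fun _ j => ((1 : ℝ) / 2) ^ j)]
  rw [Finset.prod_const, Finset.card_univ, Fintype.card_fin]
  refine pow_le_pow_left₀ (Finset.sum_nonneg fun i _ => by positivity) ?_ N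
  have h := Summable.sum_le_tsum (Finset.range M) (fun i _ => by positivity)
    summable_geometric_two
  rwa [tsum_geometric_two] at h

open Classical in
/-- the terms of the series of a cone -/
noncomputable def tm {K : Type} [Field K] (q : ℕ) (P : AA N → Prop) (m t : ℕ) (x : AA N) : K :=
  if P x ∧ mmA N x = m ∧ alA N x = t then (q : K)⁻¹ ^ (wtA N x).toNat else 0

theorem summ (q : ℕ) (hq : 2 ≤ q) (P : AA N → Prop) (hP : ∀ x, P x → ∀ i, 0 ≤ x.1 i) (m t : ℕ) :
    Summable (tm (K := ℝ) q P m t) := by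
  rw [← (kk_inj m t).summable_iff]
  · refine Summable.of_nonneg_of_le (fun x => ?_) (fun x => ?_) (summable_q q hq)
    · simp only [Function.comp, tm]
      split_ifs
      · positivity
      · exact le_rfl
    · simp only [Function.comp, tm]
      split_ifs
      · rw [wt_kk]
      · positivity
  · intro x hx
    unfold tm
    rw [if_neg]
    rintro ⟨h1, h2, h3⟩
    exact hx (mem_kk (hP x h1) h2 h3)

theorem norm_tm (q : ℕ) (P : AA N → Prop) (m t : ℕ) (x : AA N) : ‖tm (K := ℂ) q P m t x‖ = tm (K := ℝ) q P m t x := by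
  unfold tm
  split_ifs
  · rw [norm_pow, norm_inv, Complex.norm_natCast]
  · exact norm_zero

theorem summC (q : ℕ) (hq : 2 ≤ q) (P : AA N → Prop) (hP : ∀ x, P x → ∀ i, 0 ≤ x.1 i) (m t : ℕ) :
    Summable (tm (K := ℂ) q P m t) := by
  refine Summable.of_norm ?_
  refine (summ q hq P hP m t).congr fun x => ?_
  exact (norm_tm q P m t x).symm

/-- the series of a cone -/
noncomputable def Zs (q : ℕ) (P : AA N → Prop) (m : ℕ) : PowerSeries ℂ :=
  PowerSeries.mk fun t => ∑' x : AA N, tm q P m t x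

/-- the points of the cone -/
def PP {p : ℕ} (s : Smp (WW N) p) (ξ : WW N) (x : AA N) : Prop :=
  s.pr (io N x) = io N x ∧ s.In ξ (io N x)

theorem apply_pr {p : ℕ} (s : Smp (WW N) p) (l : WW N →ₗ[ℚ] ℚ) {x : WW N} (hx : s.pr x = x) :
    l x = ∑ i, s.φ i x * l (s.g i) := by
  conv_lhs => rw [← hx]
  unfold Smp.pr
  rw [map_sum]
  exact Finset.sum_congr rfl fun i _ => by rw [map_smul, smul_eq_mul]

end spaces

end Pool.Agent.Y780.HX
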