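import Pool.Agent.Y780.HX.ZI0

/-! Project HX (helper228), job ZI: the recurrence for a cone. -/

set_option autoImplicit false

namespace Pool.Agent.Y780.HX

open Pool.Agent.Y228.HX

section

variable {N : ℕ}

theorem cone_ann (hC : S_CONE) {p : ℕ} (s : Smp (WW N) p) (ξ : WW N) (q : ℕ) (hq : 2 ≤ q)
    (h1 : ∀ i k, 0 ≤ (s.g i).1 k) (h2 : ∀ i, 0 ≤ (s.g i).2.1) (h3 : ∀ i, 0 ≤ (s.g i).2.2)
    (hξ : s.pr ξ = ξ) (hm : 0 < ξ.2.2) :
    (∀ x, PP s ξ x → ∀ i, 0 ≤ x.1 i) ∧ Ann (Zs q (PP s ξ)) := by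
  have hpos : ∀ x, PP s ξ x → ∀ i, 0 ≤ x.1 i := by
    intro x hx i
    have h4 := apply_pr s (wF i) hx.1
    have h5 : (0 : ℚ) ≤ wF i (io N x) := by
      rw [h4]
      exact Finset.sum_nonneg fun k _ => mul_nonneg (hx.2 k).1 (h1 k i)
    rw [wF_apply, io_fst] at h5
    exact_mod_cast h5
  refine ⟨hpos, ?_⟩
  have hcl : ∀ i, ∃ (c : ℕ) (γ : AA N), 0 < c ∧ io N γ = (c : ℚ) • s.g i := fun i => clear (s.g i)
  choose c γ hc hγ using hcl
  have hcq : ∀ i, (0 : ℚ) < c i := fun i => by exact_mod_cast hc i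
  let s2 : Smp (WW N) p :=
    { g := fun i => (c i : ℚ) • s.g i
      φ := fun i => (c i : ℚ)⁻¹ • s.φ i
      dual := by
        intro i j
        rw [LinearMap.smul_apply, map_smul, s.dual i j, smul_eq_mul, smul_eq_mul]
        by_cases h : i = j
        · subst h
          rw [if_pos rfl, mul_one, inv_mul_cancel₀ (hcq i).ne']
        · rw [if_neg h, mul_zero, mul_zero] }
  have hpr : ∀ x, s2.pr x = s.pr x := by
    intro x
    unfold Smp.pr
    refine Finset.sum_congr rfl fun i _ => ?_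
    change ((c i : ℚ)⁻¹ • s.φ i) x • ((c i : ℚ) • s.g i) = _
    rw [LinearMap.smul_apply, smul_smul, smul_eq_mul]
    congr 1
    have := (hcq i).ne'
    field_simp
  let B : Finset (Fin p) := Finset.univ.filter fun i => s.φ i ξ < 0
  have hCX : ∀ x : AA N, CX (io N) s2 B x ↔ PP s ξ x := by
    intro x
    unfold CX PP
    rw [hpr]
    refine and_congr Iff.rfl ?_
    unfold Smp.In
    refine forall_congr' fun i => ?_
    have e1 : s2.φ i (io N x) = (c i : ℚ)⁻¹ * s.φ i (io N x) := rfl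
    have e2 : (0 : ℚ) < (c i : ℚ)⁻¹ := inv_pos.2 (hcq i)
    rw [e1]
    refine and_congr (mul_nonneg_iff_of_pos_left e2) ?_
    rw [mul_pos_iff_of_pos_left e2]
    simp [B]
  have e0 : ∀ i, (io N (γ i)) = s2.g i := fun i => hγ i
  have hnn : ∀ i, 0 ≤ wtA N (γ i) ∧ 0 ≤ alA N (γ i) ∧ 0 ≤ mmA N (γ i) := by
    intro i
    have g1 : ∀ k, 0 ≤ (γ i).1 k := by
      intro k
      have : (((γ i).1 k : ℤ) : ℚ) = (c i : ℚ) * (s.g i).1 k := congrFun (congrArg Prod.fst (hγ i)) k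
      have h4 : (0 : ℚ) ≤ (((γ i).1 k : ℤ) : ℚ) := by
        rw [this]
        exact mul_nonneg (hcq i).le (h1 i k)
      exact_mod_cast h4
    have g2 : 0 ≤ (γ i).2.1 := by
      have : (((γ i).2.1 : ℤ) : ℚ) = (c i : ℚ) * (s.g i).2.1 :=
        congrArg Prod.fst (congrArg Prod.snd (hγ i))
      have h4 : (0 : ℚ) ≤ (((γ i).2.1 : ℤ) : ℚ) := by
        rw [this]
        exact mul_nonneg (hcq i).le (h2 i)
      exact_mod_cast h4
    have g3 : 0 ≤ (γ i).2.2 := by
      have : (((γ i).2.2 : ℤ) : ℚ) = (c i : ℚ) * (s.g i).2.2 :=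
        congrArg Prod.snd (congrArg Prod.snd (hγ i))
      have h4 : (0 : ℚ) ≤ (((γ i).2.2 : ℤ) : ℚ) := by
        rw [this]
        exact mul_nonneg (hcq i).le (h3 i)
      exact_mod_cast h4
    refine ⟨?_, g2, g3⟩
    rw [wtA_apply]
    exact Finset.sum_nonneg fun k _ => g1 k
  have hex : ∃ i, i ∉ B ∧ 0 < mmA N (γ i) := by
    have h4 := apply_pr s (mF N) hξ
    rw [mF_apply] at h4
    rw [h4] at hm
    obtain ⟨i, _, hi⟩ := Finset.exists_lt_of_sum_lt (s := Finset.univ) (f := fun _ : Fin p => (0 : ℚ))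
      (g := fun i => s.φ i ξ * mF N (s.g i)) (by simpa using hm)
    rw [mF_apply] at hi
    have h5 : 0 < s.φ i ξ := by
      by_contra h
      have := mul_nonpos_of_nonpos_of_nonneg (not_lt.1 h) (h3 i)
      exact absurd hi (not_lt.2 this)
    have h6 : 0 < (s.g i).2.2 := by
      refine lt_of_le_of_ne (h3 i) fun h => ?_
      rw [← h, mul_zero] at hi
      exact lt_irrefl _ hi
    refine ⟨i, ?_, ?_⟩
    · simp only [B, Finset.mem_filter, Finset.mem_univ, true_and, not_lt]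
      exact h5.le
    · have : (((γ i).2.2 : ℤ) : ℚ) = (c i : ℚ) * (s.g i).2.2 :=
        congrArg Prod.snd (congrArg Prod.snd (hγ i))
      have h7 : (0 : ℚ) < (((γ i).2.2 : ℤ) : ℚ) := by
        rw [this]
        exact mul_pos (hcq i) h6
      rw [mmA_apply]
      exact_mod_cast h7
  have hwt : ∀ x, wtF N (io N x) = ((wtA N x : ℤ) : ℚ) := by
    intro x
    unfold wtF
    rw [LinearMap.sum_apply, wtA_apply]
    push_cast
    rfl
  have key := hC (AA N) (WW N) (io N) p s2 γ B (wtF N) (aF N) (mF N) (wtA N) (alA N) (mmA N) q hq e0 hwt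
    (fun x => rfl) (fun x => rfl) hnn hex ?_
  · convert key using 1
    funext m
    unfold Zs
    congr 1
    funext t
    refine tsum_congr fun x => ?_
    unfold tm
    by_cases h : PP s ξ x ∧ mmA N x = m ∧ alA N x = t
    · rw [if_pos h, if_pos ⟨(hCX x).2 h.1, h.2⟩]
    · rw [if_neg h, if_neg fun h' => h ⟨(hCX x).1 h'.1, h'.2⟩]
  · intro m t
    refine (summ q hq (PP s ξ) hpos m t).congr fun x => ?_
    unfold tm
    by_cases h : PP s ξ x ∧ mmA N x = m ∧ alA N x = t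
    · rw [if_pos h, if_pos ⟨(hCX x).2 h.1, h.2⟩]
    · rw [if_neg h, if_neg fun h' => h ⟨(hCX x).1 h'.1, h'.2⟩]

end

end Pool.Agent.Y780.HX
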